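import Pool.Agent.MP_5f72fe_nt.H3.SpecC

/-! Integral forms with the multiplier of `η⁸ θ` that reduce to the spanning series. -/

namespace Pool.Agent.MP_5f72fe_nt.H86

open Pool.Agent.MP_5f72fe_nt.H3 Complex
open scoped Real PowerSeries

/-- the exponents are `r` modulo `12` -/
def Md (r : ℕ) (F : ℤ⟦X⟧) : Prop := ∀ n, PowerSeries.coeff n F ≠ 0 → n % 12 = r % 12

theorem Md.of_sup {r : ℕ} {F : ℤ⟦X⟧} (h : Sup 12 r F) : Md r F := fun n hn => by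
  obtain ⟨t, rfl⟩ := h n hn
  omega

theorem Md.of_mod {r s : ℕ} {F : ℤ⟦X⟧} (h : Md r F) (e : r % 12 = s % 12) : Md s F :=
  fun n hn => (h n hn).trans e

theorem Md.mul {r s : ℕ} {F G : ℤ⟦X⟧} (h : Md r F) (h' : Md s G) : Md (r + s) (F * G) := by
  intro n hn
  rw [PowerSeries.coeff_mul] at hn
  obtain ⟨p, hp, h1⟩ := Finset.exists_ne_zero_of_sum_ne_zero hn
  have h2 := h _ (left_ne_zero_of_mul h1)
  have h3 := h' _ (right_ne_zero_of_mul h1)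
  have h4 := Finset.HasAntidiagonal.mem_antidiagonal.1 hp
  omega

theorem Md.add {r : ℕ} {F G : ℤ⟦X⟧} (h : Md r F) (h' : Md r G) : Md r (F + G) := by
  intro n hn
  by_cases h1 : PowerSeries.coeff n F = 0
  · exact h' n (by rwa [map_add, h1, zero_add] at hn)
  · exact h n h1

theorem Md.sub {r : ℕ} {F G : ℤ⟦X⟧} (h : Md r F) (h' : Md r G) : Md r (F - G) := by
  intro n hn
  by_cases h1 : PowerSeries.coeff n F = 0
  · exact h' n (by rwa [map_sub, h1, zero_sub, neg_ne_zero] at hn)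
  · exact h n h1

theorem Md.nat (m : ℕ) : Md 0 (m : ℤ⟦X⟧) := by
  intro n hn
  rw [← map_natCast (PowerSeries.C (R := ℤ)), PowerSeries.coeff_C] at hn
  by_contra h
  exact hn (if_neg fun h1 => h (by rw [h1]))

theorem Md.pow {r : ℕ} {F : ℤ⟦X⟧} (h : Md r F) (m : ℕ) : Md (r * m) (F ^ m) := by
  induction m with
  | zero => simpa using Md.nat 1
  | succ k ih => rw [pow_succ, Nat.mul_succ]; exact ih.mul h

theorem par_cz {W0 W1 : ℤ⟦X⟧} (h0 : Md 4 W0) (h1 : Md 7 W1) :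
    par 0 (cz (W0 + W1)) = cz W0 ∧ par 1 (cz (W0 + W1)) = cz W1 := by
  have key : ∀ n, (n % 2 = 0 → PowerSeries.coeff n W1 = 0) ∧
      (n % 2 = 1 → PowerSeries.coeff n W0 = 0) := fun n =>
    ⟨fun h => by_contra fun h' => by have := h1 n h'; omega,
      fun h => by_contra fun h' => by have := h0 n h'; omega⟩
  constructor <;> funext n <;> simp only [par, cz, map_add] <;> split_ifs with h
  · rw [(key n).1 h, add_zero]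
  · rw [(key n).2 (by omega), Int.cast_zero]
  · rw [(key n).2 h, zero_add]
  · rw [(key n).1 (by omega), Int.cast_zero]

theorem wl_of (hJ : RowJH) (j : ℕ) (W : ℕ → ℤ⟦X⟧) (hs : Sm (cz (W 0 + W 1))) (h0 : Md 4 (W 0))
    (h1 : Md 7 (W 1)) (hl : ∀ τ : ℂ, 0 < τ.im → ∀ μ < 2, sr (W μ) (-1 / τ) =
      τ ^ (j + 4) * (Jh τ * ((sr (W 0) τ + (-1) ^ μ * sr (W 1) τ) / (√2 : ℝ)))) :
    WL j (cz (W 0 + W 1)) := by
  obtain ⟨e0, e1⟩ := par_cz h0 h1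
  refine ⟨hs, fun n hn => ?_, fun τ hτ μ hμ => ?_⟩
  · by_cases h : PowerSeries.coeff n (W 0) = 0
    · refine Or.inr (h1 n fun h2 => hn ?_)
      simp only [cz, map_add, h, h2, add_zero, Int.cast_zero]
    · exact Or.inl (h0 n h)
  · have e : par μ (cz (W 0 + W 1)) = cz (W μ) := by
      interval_cases μ
      · exact e0
      · exact e1
    have e2 : I ^ j * Jh τ ^ (2 * j + 9) = τ ^ (j + 4) * Jh τ := by
      have e3 : Jh τ ^ (2 * j + 9) = (Jh τ ^ 2) ^ j * (Jh τ ^ 2) ^ 4 * Jh τ := by ring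
      have e4 : I ^ j * (-I * τ) ^ j = τ ^ j := by
        rw [← mul_pow, ← mul_assoc, mul_neg, I_mul_I, neg_neg, one_mul]
      have e5 : (-I * τ) ^ 4 = τ ^ 4 := by
        rw [mul_pow, neg_pow, I_pow_four]; norm_num
      rw [e3, hJ.sq, e5, ← mul_assoc, ← mul_assoc, e4, pow_add]
    rw [e, e0, e1, Nat.cast_one, one_mul, e2, mul_assoc]
    exact hl τ hτ μ hμ

/-- the components of `(E₆ θ - E₄ H) / 3` -/
noncomputable def Xm (μ : ℕ) : ℤ⟦X⟧ :=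
  Aa * (Aa ^ 3 + 216 * Kk ^ 3) * Pm μ - (252 * Aa ^ 3 * Kk ^ 3 + 1944 * Kk ^ 6) * Tm μ

theorem sr_facts (hS : RowSER) (hI : RowINT) (hB : RowBASE) (m : ℕ) :
    Sm (cz (E8 ^ m * Tm 0 + E8 ^ m * Tm 1)) ∧ Sm (cz (E8 ^ m * Xm 0 + E8 ^ m * Xm 1)) ∧
    ∀ τ : ℂ, 0 < τ.im → ∀ μ < 2, sr (E8 ^ m * Tm μ) τ = sr E8 τ ^ m * sr (Tm μ) τ ∧
      sr (E8 ^ m * Xm μ) τ = sr E8 τ ^ m *
        (((sr Aa τ ^ 6 - 540 * sr Aa τ ^ 3 * sr Kk τ ^ 3 - 5832 * sr Kk τ ^ 6) * sr (Tm μ) τ -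
          sr Aa τ * (sr Aa τ ^ 3 + 216 * sr Kk τ ^ 3) * sr (Hm μ) τ) / 3) := by
  obtain ⟨R, hR, hφ⟩ := hS.ring
  have hA : Aa ∈ R := (hR _).2 hB.sm.2.1
  have hK : Kk ∈ R := (hR _).2 hB.sm.2.2.1
  have hT : ∀ μ < 2, Tm μ ∈ R := fun μ h => (hR _).2 (hB.sm.1 μ h)
  have hP : ∀ μ < 2, Pm μ ∈ R := fun μ h => (hR _).2 (hB.sm.2.2.2 μ h)
  have hE : E8 ∈ R := R.mul_mem hK (R.sub_mem (R.pow_mem hA 3)
    (R.mul_mem (ofNat_mem R 27) (R.pow_mem hK 3)))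
  have hX : ∀ μ < 2, Xm μ ∈ R := fun μ h => R.sub_mem
    (R.mul_mem (R.mul_mem hA (R.add_mem (R.pow_mem hA 3)
      (R.mul_mem (ofNat_mem R 216) (R.pow_mem hK 3)))) (hP μ h))
    (R.mul_mem (R.add_mem (R.mul_mem (R.mul_mem (ofNat_mem R 252) (R.pow_mem hA 3))
      (R.pow_mem hK 3)) (R.mul_mem (ofNat_mem R 1944) (R.pow_mem hK 6))) (hT μ h))
  refine ⟨(hR _).1 (R.add_mem (R.mul_mem (R.pow_mem hE m) (hT 0 two_pos))
      (R.mul_mem (R.pow_mem hE m) (hT 1 one_lt_two))),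
    (hR _).1 (R.add_mem (R.mul_mem (R.pow_mem hE m) (hX 0 two_pos))
      (R.mul_mem (R.pow_mem hE m) (hX 1 one_lt_two))), fun τ hτ μ hμ => ?_⟩
  obtain ⟨φ, h⟩ := hφ τ hτ
  have h1 : ∀ F, F ∈ R → sr (E8 ^ m * F) τ = sr E8 τ ^ m * sr F τ := fun F hF => by
    have h2 := h (⟨E8, hE⟩ ^ m * ⟨F, hF⟩)
    rw [map_mul, map_pow, h, h] at h2
    exact h2.symm
  refine ⟨h1 _ (hT μ hμ), ?_⟩
  have eH : Hm μ = Aa ^ 2 * Tm μ - 3 * Pm μ := by rw [hI.three μ hμ]; ring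
  have h3 := h (⟨Aa, hA⟩ ^ 2 * ⟨Tm μ, hT μ hμ⟩ - 3 * ⟨Pm μ, hP μ hμ⟩)
  have h4 := h (⟨Aa, hA⟩ * (⟨Aa, hA⟩ ^ 3 + 216 * ⟨Kk, hK⟩ ^ 3) * ⟨Pm μ, hP μ hμ⟩ -
    (252 * ⟨Aa, hA⟩ ^ 3 * ⟨Kk, hK⟩ ^ 3 + 1944 * ⟨Kk, hK⟩ ^ 6) * ⟨Tm μ, hT μ hμ⟩)
  simp only [map_mul, map_pow, map_add, map_sub, map_ofNat] at h3 h4
  simp only [h] at h3 h4
  have h5 : sr (Hm μ) τ = sr Aa τ ^ 2 * sr (Tm μ) τ - 3 * sr (Pm μ) τ := by
    rw [eH]; exact h3.symm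
  have h6 : sr (Xm μ) τ = _ := h4.symm
  rw [h1 _ (hX μ hμ), h5, h6]
  ring

theorem law46 (hB : RowBASE) (τ : ℂ) (hτ : 0 < τ.im) :
    sr Aa (-1 / τ) * (sr Aa (-1 / τ) ^ 3 + 216 * sr Kk (-1 / τ) ^ 3) =
      τ ^ 4 * (sr Aa τ * (sr Aa τ ^ 3 + 216 * sr Kk τ ^ 3)) ∧
    sr Aa (-1 / τ) ^ 6 - 540 * sr Aa (-1 / τ) ^ 3 * sr Kk (-1 / τ) ^ 3 - 5832 * sr Kk (-1 / τ) ^ 6 =
      τ ^ 6 * (sr Aa τ ^ 6 - 540 * sr Aa τ ^ 3 * sr Kk τ ^ 3 - 5832 * sr Kk τ ^ 6) := by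
  have h3 : (((√3 : ℝ) : ℂ)) ^ 2 = 3 := by
    rw [← ofReal_pow, Real.sq_sqrt (by norm_num)]; norm_num
  have h0 : ((√3 : ℝ) : ℂ) ≠ 0 := fun h => by rw [h] at h3; norm_num at h3
  obtain ⟨u, hu, h1, h2⟩ : ∃ u : ℂ, u ^ 2 = -τ ^ 2 / 3 ∧
      sr Aa (-1 / τ) = u * (sr Aa τ + 6 * sr Kk τ) ∧
      sr Kk (-1 / τ) = u * (sr Aa τ - 3 * sr Kk τ) / 3 := by
    refine ⟨-I * τ / (√3 : ℝ), ?_, ?_, ?_⟩
    · rw [div_pow, h3, mul_pow, neg_sq, I_sq, neg_one_mul]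
    · rw [hB.lawA τ hτ]; ring
    · rw [hB.lawK τ hτ]; field_simp
  have u4 : u ^ 4 = τ ^ 4 / 9 := by
    rw [show u ^ 4 = (u ^ 2) ^ 2 by ring, hu]; ring
  have u6 : u ^ 6 = -τ ^ 6 / 27 := by
    rw [show u ^ 6 = (u ^ 2) ^ 3 by ring, hu]; ring
  rw [h1, h2]
  generalize sr Aa τ = a
  generalize sr Kk τ = k
  constructor
  · linear_combination (9 * (a * (a ^ 3 + 216 * k ^ 3))) * u4
  · linear_combination (-27 * (a ^ 6 - 540 * a ^ 3 * k ^ 3 - 5832 * k ^ 6)) * u6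

theorem red_facts (hI : RowINT) : red E8 = red Kk ∧ ∀ μ, red (Xm μ) = red (Pm μ) := by
  have hA : PowerSeries.map (Int.castRingHom (ZMod 3)) Aa = 1 := hI.redA
  have h3 : (3 : (ZMod 3)⟦X⟧) = 0 := by
    rw [← map_ofNat (PowerSeries.C (R := ZMod 3)) 3, show (3 : ZMod 3) = 0 from rfl, map_zero]
  refine ⟨?_, fun μ => ?_⟩
  · simp only [red, E8, map_mul, map_pow, map_sub, map_ofNat, hA]
    generalize PowerSeries.map (Int.castRingHom (ZMod 3)) Kk = k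
    linear_combination (-9 * k ^ 4) * h3
  · simp only [red, Xm, map_mul, map_pow, map_sub, map_add, map_ofNat, hA]
    generalize PowerSeries.map (Int.castRingHom (ZMod 3)) Kk = k
    generalize PowerSeries.map (Int.castRingHom (ZMod 3)) (Pm μ) = q
    generalize PowerSeries.map (Int.castRingHom (ZMod 3)) (Tm μ) = t
    linear_combination (72 * k ^ 3 * q - (84 * k ^ 3 + 648 * k ^ 6) * t) * h3

theorem rowWGEN : OfWGEN := by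
  intro hS hJ hI hB hN k ⟨i, b⟩
  obtain ⟨s1, s2, hsr⟩ := sr_facts hS hI hB (3 * i + 1)
  obtain ⟨r1, r2⟩ := red_facts hI
  have hA : PowerSeries.map (Int.castRingHom (ZMod 3)) Aa = 1 := hI.redA
  have mE : Md 4 (E8 ^ (3 * i + 1)) := ((Md.of_sup hI.supE.1).pow _).of_mod (by omega)
  have mA := Md.of_sup hI.supA.1
  have mK := Md.of_sup hI.supK.1
  have mT0 := Md.of_sup hI.supT.1
  have mT1 := Md.of_sup hI.supT.2.1
  have him : ∀ τ : ℂ, 0 < τ.im → 0 < (-1 / τ).im := fun τ hτ => by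
    have h0 : τ ≠ 0 := fun h => by rw [h] at hτ; simp at hτ
    rw [neg_div, one_div, neg_im, inv_im, neg_div, neg_neg]
    exact div_pos hτ (normSq_pos.2 h0)
  cases b
  · refine ⟨12 * i, _, ⟨6 * i, by ring⟩, wl_of hJ _ (fun μ => E8 ^ (3 * i + 1) * Tm μ) s1
      (mE.mul mT0) (mE.mul mT1) fun τ hτ μ hμ => ?_, ?_⟩
    · rw [(hsr _ (him τ hτ) μ hμ).1, (hsr τ hτ 0 two_pos).1, (hsr τ hτ 1 one_lt_two).1,
        hN.lawE τ hτ, hB.lawT τ hτ μ hμ]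
      ring
    · unfold red at r1 ⊢
      simp only [yb, Bool.false_eq_true, if_false, map_mul, map_add, map_pow, r1, hA]
      ring
  · have m4 : Md 0 (Aa * (Aa ^ 3 + 216 * Kk ^ 3)) :=
      mA.mul ((mA.pow 3).add (((Md.nat 216).mul (mK.pow 3)).of_mod rfl))
    have m6 : Md 0 (252 * Aa ^ 3 * Kk ^ 3 + 1944 * Kk ^ 6) :=
      ((((Md.nat 252).mul (mA.pow 3)).mul (mK.pow 3)).of_mod rfl).add
        (((Md.nat 1944).mul (mK.pow 6)).of_mod rfl)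
    have mX0 : Md 0 (Xm 0) := ((m4.mul (Md.of_sup hI.supP.1)).of_mod rfl).sub (m6.mul mT0)
    have mX1 : Md 3 (Xm 1) := (m4.mul (Md.of_sup hI.supP.2.1)).sub (m6.mul mT1)
    refine ⟨12 * i + 6, _, ⟨6 * i + 3, by ring⟩, wl_of hJ _ (fun μ => E8 ^ (3 * i + 1) * Xm μ) s2
      (mE.mul mX0) (mE.mul mX1) fun τ hτ μ hμ => ?_, ?_⟩
    · obtain ⟨l4, l6⟩ := law46 hB τ hτ
      have e : -Jh τ ^ 5 = τ ^ 2 * Jh τ := by
        rw [show Jh τ ^ 5 = (Jh τ ^ 2) ^ 2 * Jh τ by ring, hJ.sq, mul_pow, neg_sq, I_sq]; ring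
      rw [(hsr _ (him τ hτ) μ hμ).2, (hsr τ hτ 0 two_pos).2, (hsr τ hτ 1 one_lt_two).2,
        hN.lawE τ hτ, l4, l6, hB.lawT τ hτ μ hμ, hN.lawH τ hτ μ hμ, e]
      ring
    · unfold red at r1 r2 ⊢
      simp only [yb, if_true, map_mul, map_add, map_pow, r1, r2, hA]
      ring

end Pool.Agent.MP_5f72fe_nt.H86
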