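import Pool.Agent.MP_5f72fe_nt.H25.SpecD

/-! Independence modulo `3` of the spanning series of part D. -/

namespace Pool.Agent.MP_5f72fe_nt.H86

open Pool.Agent.MP_5f72fe_nt.H3 Pool.Agent.MP_5f72fe_nt.H25
open scoped PowerSeries

theorem indp_pow (hI : RowINT) (n : ℕ) :
    Sup 12 (4 * n) (Kk ^ n) ∧ PowerSeries.coeff (4 * n) (Kk ^ n) = 1 := by
  induction n with
  | zero =>
    refine ⟨fun m hm => ⟨0, ?_⟩, by simp⟩
    by_contra h
    rw [pow_zero, PowerSeries.coeff_one, if_neg (by omega)] at hm
    exact hm rfl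
  | succ n ih =>
    have h := hI.supMul 12 _ _ _ _ ih.1 hI.supK.1
    rw [ih.2, hI.supK.2, mul_one, ← pow_succ] at h
    have e : 4 * (n + 1) = 4 * n + 4 := by ring
    rw [e]
    exact h

theorem indp_zero {r n : ℕ} {F : ℤ⟦X⟧} (h : Sup 12 r F) (hn : ∀ t, n ≠ r + 12 * t) :
    PowerSeries.coeff n F = 0 := by
  by_contra h0
  obtain ⟨t, ht⟩ := h n h0
  exact hn t ht

theorem indp_coeff (hI : RowINT) (k i n : ℕ) :
    PowerSeries.coeff n (red (ybP k (i, false))) =
      ((PowerSeries.coeff n (Kk ^ (3 * i) * Z1 0) +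
        PowerSeries.coeff n (Kk ^ (3 * i) * Z1 1) : ℤ) : ZMod 3) ∧
    PowerSeries.coeff n (red (ybP k (i, true))) =
      ((PowerSeries.coeff n (Kk ^ (3 * i + 1) * Z0 0) +
        PowerSeries.coeff n (Kk ^ (3 * i + 1) * Z0 1) : ℤ) : ZMod 3) := by
  have key : ∀ (m : ℕ) (F G H : ℤ⟦X⟧), PowerSeries.coeff n (red (Aa ^ m * F * (G + H))) =
      ((PowerSeries.coeff n (F * G) + PowerSeries.coeff n (F * H) : ℤ) : ZMod 3) := by
    intro m F G H
    have e : red (Aa ^ m * F * (G + H)) = red (F * G + F * H) := by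
      have h1 := hI.redA
      unfold red at h1 ⊢
      rw [mul_assoc, map_mul, map_pow, h1, one_pow, one_mul, mul_add]
    rw [e, red, PowerSeries.coeff_map, map_add]
    rfl
  exact ⟨key _ _ _ _, key _ _ _ _⟩

theorem rowINDP : OfINDP := by
  intro hI hZ k r z h
  have S := fun i : ℕ => indp_pow hI (3 * i)
  have S' := fun i : ℕ => indp_pow hI (3 * i + 1)
  have T0 := fun i : ℕ => hI.supMul 12 _ _ _ _ (S i).1 hZ.sup1.1
  have T1 := fun i : ℕ => hI.supMul 12 _ _ _ _ (S i).1 hZ.sup1.2.1
  have P0 := fun i : ℕ => hI.supMul 12 _ _ _ _ (S' i).1 hZ.sup0.1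
  have P1 := fun i : ℕ => hI.supMul 12 _ _ _ _ (S' i).1 hZ.sup0.2.1
  have main : ∀ (m : ℕ) (i : Fin r), i.1 = m → z (i, false) = 0 ∧ z (i, true) = 0 := by
    intro m
    induction m using Nat.strong_induction_on with
    | _ m ih =>
      intro i hi
      have one : ∀ n, n ≤ 4 * (3 * m) + 4 →
          z (i, true) * PowerSeries.coeff n (red (ybP k (m, true))) +
            z (i, false) * PowerSeries.coeff n (red (ybP k (m, false))) = 0 := by
        intro n hn
        have h1 := h n
        rw [Fintype.sum_prod_type, Finset.sum_eq_single i] at h1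
        · rw [Fintype.sum_bool] at h1
          rw [← hi]; exact h1
        · intro j _ hj
          rw [Fintype.sum_bool]
          rcases lt_trichotomy j.1 m with hl | hl | hl
          · rw [(ih j hl j rfl).1, (ih j hl j rfl).2, zero_mul, zero_mul, add_zero]
          · exact absurd (Fin.ext (hl.trans hi.symm)) hj
          · rw [(indp_coeff hI k j n).1, (indp_coeff hI k j n).2,
              indp_zero (T0 j).1 fun t => by omega, indp_zero (T1 j).1 fun t => by omega,
              indp_zero (P0 j).1 fun t => by omega, indp_zero (P1 j).1 fun t => by omega]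
            simp
        · intro h2; exact absurd (Finset.mem_univ i) h2
      have a := one (4 * (3 * m) + 1) (by omega)
      rw [(indp_coeff hI k m _).1, (indp_coeff hI k m _).2, (T1 m).2, (S m).2, hZ.sup1.2.2,
        indp_zero (T0 m).1 fun t => by omega, indp_zero (P0 m).1 fun t => by omega,
        indp_zero (P1 m).1 fun t => by omega] at a
      have a' : z (i, false) = 0 := by simpa using a
      have b := one (4 * (3 * m + 1) + 0) (by omega)
      rw [(indp_coeff hI k m _).2, (P0 m).2, (S' m).2, hZ.sup0.2.2,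
        indp_zero (P1 m).1 fun t => by omega, a', zero_mul, add_zero] at b
      exact ⟨a', by simpa using b⟩
  funext p
  obtain ⟨i, c⟩ := p
  cases c
  · exact (main i i rfl).1
  · exact (main i i rfl).2

end Pool.Agent.MP_5f72fe_nt.H86
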