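import Pool.Agent.MP_5f72fe_nt.H3.SpecC

/-! The columns of the kernel are coefficients of cusp forms. -/

namespace Pool.Agent.MP_5f72fe_nt.H86

open Pool.Agent.MP_5f72fe_nt.H3 Complex Filter Topology Set
open scoped Real MatrixGroups UpperHalfPlane NumberTheorySymbols

theorem adm_odd {N k : ℕ} (h : Adm N k) : Odd N := by
  have := h.2.2
  rw [Nat.odd_iff]; omega

theorem Qt_neg (hC : RowCHI) {N k : ℕ} (h : Adm N k) (n : ℕ) (z : ℂ) (a b c : ℤ) :
    Qt N k n z (-a, -b, -c) = Qt N k n z (a, b, c) := by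
  have e1 : (-b) ^ 2 - 4 * (-a) * (-c) = b ^ 2 - 4 * a * c := by ring
  have e2 : ((-a : ℤ) : ℂ) * z ^ 2 + ((-b : ℤ) : ℂ) * z + ((-c : ℤ) : ℂ) =
      -((a : ℂ) * z ^ 2 + b * z + c) := by push_cast; ring
  simp only [Qt, e1, e2, hC.neg N a b c (adm_odd h) h.2.1]
  split_ifs with h1 h2
  · have hk : Even k := by have := h.2.2; rw [Nat.even_iff]; omega
    rw [hk.neg_pow, one_mul]
  · have hk : Odd k := by have := h.2.2; rw [Nat.odd_iff]; omega
    rw [hk.neg_pow]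
    push_cast
    rw [neg_one_mul, neg_div_neg_eq]
  · rfl

/-- the terms with fixed first coefficient -/
noncomputable def Ga (N k n : ℕ) (z : ℂ) (a : ℤ) : ℂ := ∑' p : ℤ × ℤ, Qt N k n z (a, p)

theorem Ga_neg (hC : RowCHI) {N k : ℕ} (h : Adm N k) (n : ℕ) (z : ℂ) (a : ℤ) :
    Ga N k n z (-a) = Ga N k n z a := by
  unfold Ga
  rw [← (Equiv.neg (ℤ × ℤ)).tsum_eq]
  exact tsum_congr fun p => Qt_neg hC h n z a p.1 p.2

theorem fq_eq (hC : RowCHI) {N k : ℕ} (h : Adm N k) (n : ℕ) (z : ℂ)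
    (hs : Summable fun q => ‖Qt N k n z q‖) :
    fq N k n z = Ga N k n z 0 + 2 * ∑' a : ℕ, Ga N k n z (a + 1) := by
  have h1 : Summable (Ga N k n z) := hs.of_norm.prod
  have h2 : Summable fun a : ℕ => Ga N k n z (a + 1) :=
    h1.comp_injective fun a b hab => by simpa using hab
  have h3 : fq N k n z = ∑' a, Ga N k n z a := hs.of_norm.tsum_prod
  rw [h3, tsum_of_add_one_of_neg_add_one h2 (by simpa only [Ga_neg hC h] using h2)]
  simp only [Ga_neg hC h]
  ring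

theorem hasSum_pos {N k n : ℕ} {z : ℂ} {C : ℝ} (hB : ∀ a : ℕ, 1 ≤ a →
    (Summable fun m : ℕ => ‖(m : ℂ) ^ (2 * k - 1) * cA k * St N k a m n * E (m * z)‖) ∧
    ∑' m : ℕ, ‖(m : ℂ) ^ (2 * k - 1) * cA k * St N k a m n * E (m * z)‖ ≤ C / a ^ 2 ∧
    ∑' p : ℤ × ℤ, Qt N k n z (a, p) =
      ∑' m : ℕ, (m : ℂ) ^ (2 * k - 1) * cA k * St N k a m n * E (m * z)) :
    HasSum (fun m : ℕ => (m : ℂ) ^ (2 * k - 1) * cA k * SS N k m n * E (m * z))
      (∑' a : ℕ, Ga N k n z (a + 1)) := by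
  let T : ℕ × ℕ → ℂ := fun p =>
    (p.2 : ℂ) ^ (2 * k - 1) * cA k * St N k (p.1 + 1) p.2 n * E (p.2 * z)
  have h0 : Summable fun a : ℕ => C / ((a + 1 : ℕ) : ℝ) ^ 2 := by
    have h1 := (summable_nat_add_iff 1).2 (Real.summable_one_div_nat_pow.2 one_lt_two)
    refine (h1.mul_left C).congr fun a => ?_
    rw [mul_one_div]
  have h1 : Summable fun p => ‖T p‖ := by
    refine (summable_prod_of_nonneg fun p => norm_nonneg _).2
      ⟨fun a => (hB (a + 1) (Nat.le_add_left 1 a)).1, ?_⟩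
    exact h0.of_nonneg_of_le (fun a => tsum_nonneg fun m => norm_nonneg _)
      fun a => (hB (a + 1) (Nat.le_add_left 1 a)).2.1
  have h2 : ∑' a : ℕ, Ga N k n z (a + 1) = ∑' p, T p := by
    rw [h1.of_norm.tsum_prod]
    refine tsum_congr fun a => ?_
    have h3 := (hB (a + 1) (Nat.le_add_left 1 a)).2.2
    rw [Nat.cast_add, Nat.cast_one] at h3
    exact h3
  have h3 : HasSum (fun p : ℕ × ℕ => T p.swap) (∑' p, T p) :=
    (Equiv.prodComm ℕ ℕ).hasSum_iff.2 h1.of_norm.hasSum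
  rw [h2]
  have h4 := h3.prod_fiberwise fun m => (h3.summable.prod_factor m).hasSum
  refine h4.congr_fun fun m => ?_
  simp only [T, Prod.swap_prod_mk, SS, tsum_mul_right, tsum_mul_left]

theorem Ga_zero_sq (hC : RowCHI) {N k t : ℕ} (h : Adm N k) (ht : 1 ≤ t) (z : ℂ)
    (hs : Summable fun q => ‖Qt N k (N * t ^ 2) z q‖) :
    Ga N k (N * t ^ 2) z 0 = 2 * phi N k t z := by
  have hN : 0 < N := (adm_odd h).pos
  have hb : (0 : ℤ) < N * t := by positivity
  have h1 : Summable fun p : ℤ × ℤ => Qt N k (N * t ^ 2) z (0, p) := hs.of_norm.prod_factor 0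
  have h2 : ∑' c : ℤ, Qt N k (N * t ^ 2) z (0, N * t, c) = phi N k t z := by
    refine tsum_congr fun c => ?_
    have e1 : ((N : ℤ) * t) ^ 2 - 4 * 0 * c = N * ((N * t ^ 2 : ℕ) : ℤ) := by push_cast; ring
    simp only [Qt, e1, hC.zero N _ c (adm_odd h) h.2.1, dvd_mul_right, if_true]
    push_cast
    rw [zero_mul, zero_add]
  have h3 : ∑' c : ℤ, Qt N k (N * t ^ 2) z (0, -(N * t), c) = phi N k t z := by
    rw [← h2, ← (Equiv.neg ℤ).tsum_eq]
    exact tsum_congr fun c => Qt_neg hC h _ z 0 (N * t) c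
  unfold Ga
  rw [h1.tsum_prod, tsum_eq_sum (s := {(N * t : ℤ), -(N * t : ℤ)}), Finset.sum_pair (by omega), h2,
    h3, two_mul]
  intro b hb'
  simp only [Finset.mem_insert, Finset.mem_singleton, not_or] at hb'
  have e : ∀ c : ℤ, Qt N k (N * t ^ 2) z (0, b, c) = 0 := fun c => by
    refine if_neg fun h4 => ?_
    have h5 : b ^ 2 = ((N : ℤ) * t) ^ 2 := by push_cast at h4; linarith
    rcases sq_eq_sq_iff_eq_or_eq_neg.1 h5 with h6 | h6
    · exact hb'.1 h6
    · exact hb'.2 h6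
  simp only [e, tsum_zero]

theorem Ga_zero_not (hC : RowCHI) {N k n : ℕ} (h : Adm N k) (hn : ∀ t, n ≠ N * t ^ 2) (z : ℂ) :
    Ga N k n z 0 = 0 := by
  have hN : 0 < N := (adm_odd h).pos
  have e : ∀ p : ℤ × ℤ, Qt N k n z (0, p) = 0 := fun p => by
    simp only [Qt, hC.zero N _ _ (adm_odd h) h.2.1]
    split_ifs with h1 h2
    · obtain ⟨s, hs⟩ := h2
      refine absurd ?_ (hn s.natAbs)
      have h3 : (N : ℤ) * n = N * (N * s ^ 2) := by rw [← h1, hs]; ring
      have h4 := mul_left_cancel₀ (by exact_mod_cast hN.ne') h3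
      zify
      rw [h4, sq_abs]
    · simp
    · rfl
  simp only [Ga, e, tsum_zero]

theorem hasSum_div {N k t : ℕ} (hN : 0 < N) (hk : 6 ≤ k) (ht : 1 ≤ t) (z : ℂ)
    (hs : Summable fun j : ℕ => ‖(j : ℂ) ^ (k - 1) * E (j * t * z)‖) :
    HasSum (fun m : ℕ => (∑ δ ∈ m.divisors, if N * t ^ 2 = N * (m / δ) ^ 2 then
        (J(δ | N) : ℂ) * δ ^ (k - 1) else 0) * E (m * z))
      (∑' j : ℕ, (J(j | N) : ℂ) * j ^ (k - 1) * E (j * t * z)) := by
  have h1 : Summable fun j : ℕ => (J(j | N) : ℂ) * j ^ (k - 1) * E (j * t * z) := by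
    refine Summable.of_norm_bounded hs fun j => ?_
    rw [mul_assoc, norm_mul]
    refine mul_le_of_le_one_left (norm_nonneg _) ?_
    rcases jacobiSym.trichotomy j N with h | h | h <;> simp [h]
  have hi : Function.Injective fun j : ℕ => j * t := fun a b hab =>
    Nat.eq_of_mul_eq_mul_right ht hab
  have key : ∀ m δ : ℕ, δ ∈ m.divisors → N * t ^ 2 = N * (m / δ) ^ 2 → m = δ * t := by
    intro m δ h2 h3
    have h4 : t = m / δ := Nat.pow_left_injective two_ne_zero (Nat.eq_of_mul_eq_mul_left hN h3)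
    rw [h4, Nat.mul_div_cancel' (Nat.dvd_of_mem_divisors h2)]
  refine (hi.hasSum_iff fun m hm => ?_).1 (h1.hasSum.congr_fun fun j => ?_)
  · rw [Finset.sum_eq_zero fun δ hδ => if_neg fun h3 => hm ⟨δ, (key m δ hδ h3).symm⟩, zero_mul]
  · rcases Nat.eq_zero_or_pos j with rfl | hj
    · have : k - 1 ≠ 0 := by omega
      simp [this]
    · have h2 : j ∈ (j * t).divisors :=
        Nat.mem_divisors.2 ⟨dvd_mul_right _ _, (Nat.mul_pos hj ht).ne'⟩
      simp only [Function.comp_apply]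
      rw [Finset.sum_eq_single_of_mem j h2 fun δ hδ hne =>
        if_neg fun h3 => hne (hi (key _ δ hδ h3)).symm, Nat.mul_div_cancel_left _ hj, if_pos rfl,
        Nat.cast_mul]

theorem hasSum_col (hC : RowCHI) (hA : RowCA) (hP : RowPHI) {N k n : ℕ} (h : Adm N k)
    (hn : 1 ≤ n) {z : ℂ} (hz : 0 < z.im)
    (h1 : HasSum (fun m : ℕ => (m : ℂ) ^ (2 * k - 1) * cA k * SS N k m n * E (m * z))
      (∑' a : ℕ, Ga N k n z (a + 1))) :
    HasSum (fun m : ℕ => Acol N k n m * E (m * z)) (fq N k n z) := by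
  have hs := (hA N k n h hn).1 z hz
  have h2 : HasSum (fun m : ℕ => 2 * (cL k * GS N / N ^ k) * ((∑ δ ∈ m.divisors,
      if n = N * (m / δ) ^ 2 then (J(δ | N) : ℂ) * δ ^ (k - 1) else 0) * E (m * z)))
      (Ga N k n z 0) := by
    by_cases hq : ∃ t, n = N * t ^ 2
    · obtain ⟨t, rfl⟩ := hq
      have ht : 1 ≤ t := by
        rcases Nat.eq_zero_or_pos t with rfl | h3
        · simp at hn
        · exact h3
      obtain ⟨-, -, h3, h4⟩ := (hP N k t h ht).2 z hz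
      rw [Ga_zero_sq hC h ht z hs, h4, ← mul_assoc]
      exact (hasSum_div (adm_odd h).pos h.1 ht z h3).mul_left _
    · push Not at hq
      rw [Ga_zero_not hC h hq z]
      simp only [hq, if_false, Finset.sum_const_zero, zero_mul, mul_zero]
      exact hasSum_zero
  rw [fq_eq hC h n z hs]
  refine (h2.add (h1.mul_left 2)).congr_fun fun m => ?_
  unfold Acol
  ring

theorem Acol_zero {N k : ℕ} (hk : 6 ≤ k) (n : ℕ) : Acol N k n 0 = 0 := by
  have : 2 * k - 1 ≠ 0 := by omega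
  simp [Acol, this]

theorem rowCOL : OfCOL := by
  intro hS hJ hC hA hB hP N k n h hn
  obtain ⟨Y, hY, hb⟩ := hB N k n h hn
  have hsum : ∀ z : ℂ, Y < z.im → HasSum (fun m : ℕ => Acol N k n m * E (m * z)) (fq N k n z) := by
    intro z hz
    obtain ⟨C, h1⟩ := hb z hz
    exact hasSum_col hC hA hP h hn (hY.trans hz) (hasSum_pos h1)
  obtain ⟨-, hd, hl⟩ := hA N k n h hn
  have hE : Ex 1 (fq N k n) := by
    refine ⟨hd.mul (Differentiable.differentiableOn ?_), fun τ hτ => ?_, ?_⟩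
    · unfold E
      fun_prop
    · have e : -(((1 : ℝ) : ℂ) * (τ + 1)) = -(((1 : ℝ) : ℂ) * τ) + ((-1 : ℤ) : ℂ) := by
        push_cast; ring
      simp only [(hl τ hτ).1, e, hJ.add, hJ.int, mul_one]
    · let z0 : ℂ := ((Y + 1 : ℝ) : ℂ) * I
      have hz0 : z0.im = Y + 1 := by simp [z0]
      have h1 := ((hsum z0 (by rw [hz0]; linarith)).mul_right (E (-z0))).summable.norm
      refine ⟨_, Y + 1, fun τ hτ =>
        ((hsum τ (by linarith)).mul_right _).norm_le_of_bounded h1.hasSum fun m => ?_⟩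
      rcases Nat.eq_zero_or_pos m with rfl | hm
      · simp [Acol_zero h.1]
      · have hm' : (1 : ℝ) ≤ m := by exact_mod_cast hm
        rw [mul_assoc, mul_assoc, ← hJ.add, ← hJ.add, norm_mul, norm_mul, hJ.norm, hJ.norm]
        refine mul_le_mul_of_nonneg_left (Real.exp_le_exp.2 ?_) (norm_nonneg _)
        simp only [add_im, neg_im, mul_im, natCast_re, natCast_im, ofReal_re, ofReal_im, zero_mul,
          add_zero, one_mul, hz0]
        have := mul_nonneg (mul_nonneg Real.pi_pos.le (sub_nonneg.2 hm')) (sub_nonneg.2 hτ)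
        linarith
  obtain ⟨F, hF⟩ := hS.levC (2 * k : ℕ) (fq N k n) hE fun τ hτ => by
    rw [zpow_natCast]; exact (hl τ hτ).2
  refine ⟨F, hF, fun m _ => ?_⟩
  obtain ⟨h1, -, h2, -⟩ := hS.cf _ F
  have h3 := hS.uniq 1 (fun m => aF F m - Acol N k n m) Y one_pos fun τ hτ => by
    have h4 := (hS.nsum 1 _ τ one_pos h1 (hY.trans hτ)).of_norm.hasSum
    have h5 : ∑' m : ℕ, aF F m * E (m * τ / (1 : ℕ)) = fq N k n τ :=
      (h2 ⟨τ, hY.trans hτ⟩).symm.trans (hF ⟨τ, hY.trans hτ⟩)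
    rw [h5] at h4
    have h6 := h4.sub (hsum τ hτ)
    rw [sub_self] at h6
    refine h6.congr_fun fun m => ?_
    rw [Nat.cast_one, div_one, sub_mul]
  exact sub_eq_zero.1 (congrFun h3 m)

end Pool.Agent.MP_5f72fe_nt.H86
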