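import Pool.Agent.MP_5f72fe_nt.H3.SpecC

/-! The Petersson product. -/

namespace Pool.Agent.MP_5f72fe_nt.H86

open Pool.Agent.MP_5f72fe_nt.H3 Complex MeasureTheory Set
open scoped Real MatrixGroups UpperHalfPlane

theorem fC_eq (hS : RowSER) {w : ℤ} (F : CuspForm 𝒮ℒ w) {τ : ℂ} (hτ : 0 < τ.im) :
    fC F τ = F ⟨τ, hτ⟩ := ((hS.cf w F).2.2.1 ⟨τ, hτ⟩).symm

theorem fC_diff (hS : RowSER) {w : ℤ} (F : CuspForm 𝒮ℒ w) :
    DifferentiableOn ℂ (fC F) {τ | 0 < τ.im} := hS.diff 1 _ one_pos (hS.cf w F).1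

theorem ps_int (hS : RowSER) (hD : RowDEC) {ν : Measure ℂ} (hν : UnfP ν) (k : ℕ)
    (F f : CuspForm 𝒮ℒ (2 * k : ℕ)) : Integrable (ps k (fC F) f) ν := by
  have := hν.1
  obtain ⟨C, hC⟩ := hD k F 0 le_rfl
  obtain ⟨C', hC'⟩ := hD k f 0 le_rfl
  have hm : MeasurableSet {τ : ℂ | 0 < τ.im} := (isOpen_lt continuous_const continuous_im).measurableSet
  have hc : ContinuousOn (ps k (fC F) f) {τ | 0 < τ.im} :=
    ((fC_diff hS F).continuousOn.mul
      (continuous_conj.comp_continuousOn (fC_diff hS f).continuousOn)).mul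
      (Continuous.continuousOn (by fun_prop))
  have h1 := hc.aestronglyMeasurable (μ := ν) hm
  have h2 : ∀ᵐ τ ∂ν, τ ∈ {τ : ℂ | 0 < τ.im} := hν.2.1
  rw [Measure.restrict_eq_self_of_ae_mem h2] at h1
  refine Integrable.of_bound h1 (C * C') ?_
  filter_upwards [hν.2.1] with τ hτ
  have h3 := hC 1 0 τ hτ (by simp)
  have h4 := hC' 1 0 τ hτ (by simp)
  rw [Real.rpow_zero, mul_one] at h3 h4
  have e : ‖ps k (fC F) f τ‖ = ‖fC F τ‖ * τ.im ^ k * (‖fC f τ‖ * τ.im ^ k) := by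
    rw [ps, norm_mul, norm_mul, norm_conj, norm_pow, norm_real, Real.norm_of_nonneg hτ.le]
    ring
  rw [e]
  exact mul_le_mul h3 h4 (by positivity) (le_trans (by positivity) h3)

theorem rowPET : OfPET := by
  intro hS hD ν k f hν
  refine ⟨⟨⟨fun F => ∫ τ, ps k (fC F) f τ ∂ν, fun F G => ?_⟩, fun c F => ?_⟩, fun _ => rfl,
    fun h => ?_⟩
  · rw [← integral_add (ps_int hS hD hν k F f) (ps_int hS hD hν k G f)]
    refine integral_congr_ae ?_
    filter_upwards [hν.2.1] with τ hτ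
    simp only [ps, fC_eq hS _ hτ, add_apply]
    ring
  · simp only [RingHom.id_apply, smul_eq_mul]
    rw [← integral_const_mul]
    refine integral_congr_ae ?_
    filter_upwards [hν.2.1] with τ hτ
    simp only [ps, fC_eq hS _ hτ, smul_apply, smul_eq_mul]
    ring
  · have e : ∀ τ, ps k (fC f) f τ = ((normSq (fC f τ) * τ.im ^ (2 * k) : ℝ) : ℂ) := fun τ => by
      rw [ps, mul_conj]; push_cast; rfl
    have h1 : ∫ τ, ps k (fC f) f τ ∂ν = 0 := h
    have h2 := (ps_int hS hD hν k f f).re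
    simp only [e] at h1 h2
    rw [integral_complex_ofReal, ofReal_eq_zero] at h1
    have h3 : Integrable (fun τ => normSq (fC f τ) * τ.im ^ (2 * k)) ν :=
      h2.congr (Filter.Eventually.of_forall fun τ => ofReal_re _)
    have h4 := (integral_eq_zero_iff_of_nonneg (fun τ => mul_nonneg (normSq_nonneg _)
      (Even.pow_nonneg (even_two_mul k) _)) h3).1 h1
    have h5 : ∀ᵐ τ ∂ν, fC f τ = 0 := by
      filter_upwards [h4, hν.2.1] with τ h6 hτ
      exact normSq_eq_zero.1 ((mul_eq_zero.1 h6).resolve_right (pow_ne_zero _ hτ.ne'))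
    have h6 := hν.2.2.1 _ (fC_diff hS f) h5
    ext z
    exact (fC_eq hS f z.im_pos).symm.trans (h6 z z.im_pos)

end Pool.Agent.MP_5f72fe_nt.H86
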